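import Mathlib

namespace Pool.Agent.Results.MP_469b0e_pr.Transient
open Finset

open Classical in
/-- `hit G o n x`: probability that simple random walk started at `x` visits `o` for the first time
(counting from time `0`) at time `n`. -/
noncomputable def hit {V : Type} (G : SimpleGraph V) [G.LocallyFinite] (o : V) : ℕ → V → ℝ
  | 0, x => if x = o then 1 else 0
  | n + 1, x => if x = o then 0 else (∑ y ∈ G.neighborFinset x, hit G o n y) / G.degree x

/-- probability that the walk started at `o` makes its first return to `o` at time `n + 1` -/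
noncomputable def ret {V : Type} (G : SimpleGraph V) [G.LocallyFinite] (o : V) (n : ℕ) : ℝ :=
  (∑ y ∈ G.neighborFinset o, hit G o n y) / G.degree o

lemma hit_nonneg {V : Type} (G : SimpleGraph V) [G.LocallyFinite] (o : V) (n : ℕ) :
    ∀ x, 0 ≤ hit G o n x := by
  induction n with
  | zero => intro x; unfold hit; split_ifs <;> norm_num
  | succ n ih =>
    intro x; unfold hit; split_ifs
    · rfl
    · exact div_nonneg (sum_nonneg fun y _ => ih y) (Nat.cast_nonneg _)

lemma hit_le {V : Type} (G : SimpleGraph V) [G.LocallyFinite] (o : V) (u : V → ℝ)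
    (h0 : ∀ x, 0 ≤ u x) (h1 : u o = 1)
    (h2 : ∀ x, x ≠ o → (∑ y ∈ G.neighborFinset x, u y) / G.degree x ≤ u x) (N : ℕ) :
    ∀ x, ∑ n ∈ range N, hit G o n x ≤ u x := by
  induction N with
  | zero => simpa using h0
  | succ N ih =>
    intro x
    rw [sum_range_succ']
    by_cases hx : x = o
    · simp [hit, hx, h1]
    · simp only [hit, hx, if_false, add_zero]
      rw [← sum_div, sum_comm]
      refine le_trans ?_ (h2 x hx)
      gcongr with y _
      exact ih y

abbrev W := Σ n : ℕ, Option (Fin (2 ^ n))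

def rel : W → W → Prop
  | ⟨n, some _⟩, ⟨m, none⟩ => m = n ∨ m = n + 1
  | _, _ => False

def Γ : SimpleGraph W := SimpleGraph.fromRel rel

def nb : W → Finset W
  | ⟨n, some _⟩ => {⟨n, none⟩, ⟨n + 1, none⟩}
  | ⟨0, none⟩ => univ.map ⟨fun i : Fin (2 ^ 0) => ⟨0, some i⟩, fun _ _ h => by simpa using h⟩
  | ⟨n + 1, none⟩ =>
    (univ.map ⟨fun i : Fin (2 ^ n) => (⟨n, some i⟩ : W), fun _ _ h => by simpa using h⟩).disjUnion
      (univ.map ⟨fun i : Fin (2 ^ (n + 1)) => ⟨n + 1, some i⟩, fun _ _ h => by simpa using h⟩)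
      (by simp [Finset.disjoint_left])

lemma mem_nb (x y : W) : y ∈ nb x ↔ Γ.Adj x y := by
  obtain ⟨n, a⟩ := x
  obtain ⟨m, b⟩ := y
  rcases a with _ | i <;> rcases b with _ | j
  · rcases n with _ | n
    · simp only [nb, Γ, rel, SimpleGraph.fromRel_adj, or_self, and_false, iff_false,
        mem_map, mem_univ, true_and, Function.Embedding.coeFn_mk, not_exists]
      intro i h; cases h
    · simp only [nb, Γ, rel, SimpleGraph.fromRel_adj, or_self, and_false, iff_false,
        mem_disjUnion, mem_map, mem_univ, true_and, Function.Embedding.coeFn_mk, not_or, not_exists]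
      constructor <;> intro i h <;> cases h
  · rcases n with _ | n
    · simp only [nb, Γ, rel, SimpleGraph.fromRel_adj, mem_map, mem_univ, true_and,
        Function.Embedding.coeFn_mk, false_or]
      constructor
      · rintro ⟨i, h⟩; cases h; exact ⟨fun h => (by cases h), Or.inl rfl⟩
      · rintro ⟨-, h | h⟩
        · subst h; exact ⟨j, rfl⟩
        · omega
    · simp only [nb, Γ, rel, SimpleGraph.fromRel_adj, mem_disjUnion, mem_map, mem_univ, true_and,
        Function.Embedding.coeFn_mk, false_or]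
      constructor
      · rintro (⟨i, h⟩ | ⟨i, h⟩) <;> cases h
        · exact ⟨fun h => (by cases h), Or.inr rfl⟩
        · exact ⟨fun h => (by cases h), Or.inl rfl⟩
      · rintro ⟨-, h | h⟩
        · subst h; exact Or.inr ⟨j, rfl⟩
        · obtain rfl : n = m := by omega
          exact Or.inl ⟨j, rfl⟩
  · simp only [nb, Γ, rel, SimpleGraph.fromRel_adj, mem_insert, mem_singleton, or_false]
    constructor
    · rintro (h | h) <;> cases h
      · exact ⟨fun h => (by cases h), Or.inl rfl⟩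
      · exact ⟨fun h => (by cases h), Or.inr rfl⟩
    · rintro ⟨-, h | h⟩ <;> subst h
      · exact Or.inl rfl
      · exact Or.inr rfl
  · simp only [nb, Γ, rel, SimpleGraph.fromRel_adj, mem_insert, mem_singleton, or_self, and_false,
      iff_false, not_or]
    constructor <;> intro h <;> cases h

@[reducible] def lf : Γ.LocallyFinite := fun x => Fintype.ofFinset (nb x) (fun y => mem_nb x y)

lemma avg_some [Γ.LocallyFinite] (f : W → ℝ) (n : ℕ) (i : Fin (2 ^ n)) :
    (∑ y ∈ Γ.neighborFinset ⟨n, some i⟩, f y) / Γ.degree ⟨n, some i⟩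
      = (f ⟨n, none⟩ + f ⟨n + 1, none⟩) / 2 := by
  have h : Γ.neighborFinset ⟨n, some i⟩ = nb ⟨n, some i⟩ := by ext; simp [mem_nb]
  have hne : (⟨n, none⟩ : W) ≠ ⟨n + 1, none⟩ := fun h => by simpa using congrArg Sigma.fst h
  rw [SimpleGraph.degree, h]
  simp only [nb]
  rw [sum_pair hne, card_pair hne]; norm_num

lemma avg_zero [Γ.LocallyFinite] (f : W → ℝ) (a : ℝ) (h0 : ∀ i, f ⟨0, some i⟩ = a) :
    (∑ y ∈ Γ.neighborFinset ⟨0, none⟩, f y) / Γ.degree ⟨0, none⟩ = a := by
  have h : Γ.neighborFinset ⟨0, none⟩ = nb ⟨0, none⟩ := by ext; simp [mem_nb]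
  rw [SimpleGraph.degree, h]
  simp [nb, h0]

lemma avg_succ [Γ.LocallyFinite] (f : W → ℝ) (n : ℕ) (a b : ℝ) (h0 : ∀ i, f ⟨n, some i⟩ = a)
    (h1 : ∀ i, f ⟨n + 1, some i⟩ = b) :
    (∑ y ∈ Γ.neighborFinset ⟨n + 1, none⟩, f y) / Γ.degree ⟨n + 1, none⟩ = (a + 2 * b) / 3 := by
  have h : Γ.neighborFinset ⟨n + 1, none⟩ = nb ⟨n + 1, none⟩ := by ext; simp [mem_nb]
  rw [SimpleGraph.degree, h]
  simp only [nb, sum_disjUnion, card_disjUnion, sum_map, Function.Embedding.coeFn_mk, h0, h1]
  simp
  field_simp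
  ring

theorem result : ∃ (V : Type) (G : SimpleGraph V) (_ : G.LocallyFinite),
    Infinite V ∧ G.Connected ∧ (∃ o, Summable (ret G o) ∧ ∑' n, ret G o n < 1) ∧
    ∀ f : V → ℝ, (∀ x, f x = (∑ y ∈ G.neighborFinset x, f y) / G.degree x) →
      ∀ x y, f x = f y := by
  let := lf
  refine ⟨W, Γ, lf, Infinite.of_injective (fun n : ℕ => (⟨n, none⟩ : W))
    (fun _ _ h => congrArg Sigma.fst h), ?_, ⟨⟨0, none⟩, ?_⟩, ?_⟩
  · have h1 : ∀ n (i : Fin (2 ^ n)), Γ.Adj ⟨n, some i⟩ ⟨n, none⟩ := fun n i =>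
      (mem_nb _ _).1 (by simp [nb])
    have h2 : ∀ n (i : Fin (2 ^ n)), Γ.Adj ⟨n, some i⟩ ⟨n + 1, none⟩ := fun n i =>
      (mem_nb _ _).1 (by simp [nb])
    have h3 : ∀ n, Γ.Reachable ⟨0, none⟩ ⟨n, none⟩ := by
      intro n
      induction n with
      | zero => rfl
      | succ n ih => exact ih.trans ((h1 n 0).symm.reachable.trans (h2 n 0).reachable)
    rw [SimpleGraph.connected_iff_exists_forall_reachable]
    refine ⟨⟨0, none⟩, ?_⟩
    rintro ⟨n, _ | i⟩
    · exact h3 n
    · exact (h3 n).trans (h1 n i).symm.reachable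
  · let u : W → ℝ := fun x => match x with
      | ⟨n, none⟩ => (1 / 2) ^ n
      | ⟨n, some _⟩ => 3 / 4 * (1 / 2) ^ n
    have hu := hit_le Γ ⟨0, none⟩ u (by rintro ⟨n, _ | i⟩ <;> simp only [u] <;> positivity)
      (by simp [u]) (by
        rintro ⟨n, _ | i⟩ hx
        · rcases n with _ | n
          · exact absurd rfl hx
          · rw [avg_succ u n (3 / 4 * (1 / 2) ^ n) (3 / 4 * (1 / 2) ^ (n + 1)) (fun _ => rfl)
              (fun _ => rfl)]
            simp only [u]; apply le_of_eq; ring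
        · rw [avg_some]; simp only [u]; apply le_of_eq; ring)
    have hb : ∀ N, ∑ n ∈ range N, ret Γ ⟨0, none⟩ n ≤ 3 / 4 := by
      intro N
      have := avg_zero u (3 / 4) (fun _ => by simp [u])
      rw [← this]
      unfold ret
      rw [← sum_div, sum_comm]
      gcongr with y _
      exact hu N y
    have hn : ∀ n, 0 ≤ ret Γ ⟨0, none⟩ n := fun n =>
      div_nonneg (sum_nonneg fun y _ => hit_nonneg _ _ _ y) (Nat.cast_nonneg _)
    exact ⟨summable_of_sum_range_le hn hb,
      (Real.tsum_le_of_sum_range_le hn hb).trans_lt (by norm_num)⟩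
  · intro f hf
    have h1 : ∀ n (i : Fin (2 ^ n)), f ⟨n, some i⟩ = (f ⟨n, none⟩ + f ⟨n + 1, none⟩) / 2 :=
      fun n i => by rw [hf, avg_some]
    have h2 : ∀ n, f ⟨n + 1, none⟩ = f ⟨n, none⟩ := by
      intro n
      induction n with
      | zero => have := hf ⟨0, none⟩; rw [avg_zero f _ (h1 0)] at this; linarith
      | succ n ih =>
        have := hf ⟨n + 1, none⟩
        rw [avg_succ f n _ _ (h1 n) (h1 (n + 1))] at this; linarith
    have h3 : ∀ n, f ⟨n, none⟩ = f ⟨0, none⟩ := by
      intro n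
      induction n with
      | zero => rfl
      | succ n ih => rw [h2, ih]
    have h4 : ∀ x, f x = f ⟨0, none⟩ := by
      rintro ⟨n, _ | i⟩
      · exact h3 n
      · rw [h1, h3, h3 (n + 1)]; ring
    intro x y; rw [h4 x, h4 y]

end Pool.Agent.Results.MP_469b0e_pr.Transient
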