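import Mathlib
import Pool.Agent.H.MP_469b0e_pr.Ends

namespace Pool.Agent.Results.MP_469b0e_pr.TwoEnds

theorem result {V : Type*} (G : SimpleGraph V) [G.LocallyFinite] (hG : G.Connected)
    (K : Finset V) (C D : (G.induce (↑K : Set V)ᶜ).ConnectedComponent) (hne : C ≠ D)
    (hC : C.supp.Infinite) (hD : D.supp.Infinite) :
    ∃ f : V → ℝ, (∀ x, f x = (∑ y ∈ G.neighborFinset x, f y) / G.degree x) ∧
      (∃ L : ℝ, ∀ x y, |f x - f y| ≤ L * G.dist x y) ∧ ∃ x y, f x ≠ f y := by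
  obtain ⟨f, h1, h2, h3⟩ := H.MP_469b0e_pr.main G hG K (Subtype.val '' C.supp) (by
      rintro u w ha ⟨u', hu', rfl⟩ hw
      by_contra hwK
      apply hw
      refine ⟨⟨w, by simpa using hwK⟩, ?_, rfl⟩
      rw [SimpleGraph.ConnectedComponent.mem_supp_iff] at hu' ⊢
      rw [← hu']
      exact SimpleGraph.ConnectedComponent.connectedComponentMk_eq_of_adj ha.symm)
    (hC.image Subtype.val_injective.injOn)
    ((hD.image Subtype.val_injective.injOn).mono (by
      rintro _ ⟨v, hv, rfl⟩ ⟨v', hv', h⟩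
      rw [Subtype.val_injective h] at hv'
      rw [SimpleGraph.ConnectedComponent.mem_supp_iff] at hv hv'
      exact hne (hv'.symm.trans hv)))
  exact ⟨f, h1, ⟨1, h2⟩, h3⟩

end Pool.Agent.Results.MP_469b0e_pr.TwoEnds
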